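import Mathlib
import Pool.Agent.Helper26.EC.Final

set_option autoImplicit false

open Polynomial

namespace Pool.Agent.Results.MP_33f69e_ag.UnboundedCanonicalDegree

/-- The polynomial whose roots are the parameters `t` in `ℂ` with `A t / B t = a`; here `a` is a point
of the projective line `OnePoint ℂ`. -/
noncomputable def fibre (A B : ℂ[X]) : OnePoint ℂ → ℂ[X]
  | none => B
  | some a => A - C a * B

/-- The degree of the map `t ↦ A t / B t` of the projective line to itself (`A`, `B` coprime). -/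
noncomputable def deg (A B : ℂ[X]) : ℕ := max A.natDegree B.natDegree

/-- The order of contact of the map `t ↦ A t / B t` with the value `a` at the point `t` of the projective
line: the order of vanishing at `t` of `A / B - a` (of `B / A` if `a = ∞`), and zero if the value at
`t` is not `a`. -/
noncomputable def ord (A B : ℂ[X]) (a : OnePoint ℂ) : OnePoint ℂ → ℕ
  | none => deg A B - (fibre A B a).natDegree
  | some t => (fibre A B a).rootMultiplicity t

/-- A rational curve in `ℙ¹ × ℙ¹`, given by its normalisation `t ↦ (A₁ t / B₁ t, A₂ t / B₂ t)`; both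
coordinates are non-constant, and the map is injective outside a finite set. -/
structure RationalCurve where
  A₁ : ℂ[X]
  B₁ : ℂ[X]
  A₂ : ℂ[X]
  B₂ : ℂ[X]
  coprime₁ : IsCoprime A₁ B₁
  coprime₂ : IsCoprime A₂ B₂
  nonconst₁ : 0 < deg A₁ B₁
  nonconst₂ : 0 < deg A₂ B₂
  birational : ∃ T : Finset ℂ, ∀ t, t ∉ T → ∀ t', t' ∉ T →
    A₁.eval t * B₁.eval t' = A₁.eval t' * B₁.eval t →
    A₂.eval t * B₂.eval t' = A₂.eval t' * B₂.eval t → t = t'

/-- The multiplicity of the curve at the point `p` of `ℙ¹ × ℙ¹`: the sum over all points `t` of the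
normalisation of the smaller of the two orders of contact. -/
noncomputable def RationalCurve.mult (K : RationalCurve) (p : OnePoint ℂ × OnePoint ℂ) : ℕ :=
  ∑ᶠ t : OnePoint ℂ, min (ord K.A₁ K.B₁ p.1 t) (ord K.A₂ K.B₂ p.2 t)

/-- The intersection number of the canonical class of the blow-up of `ℙ¹ × ℙ¹` in the finite set `S`
with the strict transform of the curve. -/
noncomputable def RationalCurve.canonicalDegree (K : RationalCurve)
    (S : Finset (OnePoint ℂ × OnePoint ℂ)) : ℤ :=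
  ∑ p ∈ S, (K.mult p : ℤ) - 2 * (deg K.A₁ K.B₁ : ℤ) - 2 * (deg K.A₂ K.B₂ : ℤ)

/-- The member with parameter `l` of the pencil `(x² - 1)(y² - 4) = l (x² - 4)(y² - 1)` of curves of
bidegree `(2,2)`, as a form in the homogeneous coordinates `x = X 1 / X 0`, `y = X 3 / X 2`. -/
noncomputable def member (l : ℂ) : MvPolynomial (Fin 4) ℂ :=
  (MvPolynomial.X 1 ^ 2 - MvPolynomial.X 0 ^ 2) * (MvPolynomial.X 3 ^ 2 - 4 * MvPolynomial.X 2 ^ 2) -
    MvPolynomial.C l * ((MvPolynomial.X 1 ^ 2 - 4 * MvPolynomial.X 0 ^ 2) *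
      (MvPolynomial.X 3 ^ 2 - MvPolynomial.X 2 ^ 2))

theorem four_eq : (4 : MvPolynomial (Fin 4) ℂ) = MvPolynomial.C 4 :=
  (map_ofNat MvPolynomial.C 4).symm

theorem member_d0 (l : ℂ) (v : Fin 4 → ℂ) : MvPolynomial.eval v (MvPolynomial.pderiv 0 (member l)) =
    2 * (v 0 * (v 3 ^ 2 * (4 * l - 1) + 4 * v 2 ^ 2 * (1 - l))) := by
  simp [member, four_eq, MvPolynomial.pderiv_X]
  ring

theorem member_d1 (l : ℂ) (v : Fin 4 → ℂ) : MvPolynomial.eval v (MvPolynomial.pderiv 1 (member l)) =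
    2 * (v 1 * (v 3 ^ 2 * (1 - l) - v 2 ^ 2 * (4 - l))) := by
  simp [member, four_eq, MvPolynomial.pderiv_X]
  ring

theorem member_d2 (l : ℂ) (v : Fin 4 → ℂ) : MvPolynomial.eval v (MvPolynomial.pderiv 2 (member l)) =
    2 * (v 2 * (v 1 ^ 2 * (l - 4) + 4 * v 0 ^ 2 * (1 - l))) := by
  simp [member, four_eq, MvPolynomial.pderiv_X]
  ring

theorem member_d3 (l : ℂ) (v : Fin 4 → ℂ) : MvPolynomial.eval v (MvPolynomial.pderiv 3 (member l)) =
    2 * (v 3 * (v 1 ^ 2 * (1 - l) - v 0 ^ 2 * (1 - 4 * l))) := by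
  simp [member, four_eq, MvPolynomial.pderiv_X]
  ring

theorem member_smooth (l : ℂ) (h0 : l ≠ 0) (h1 : l ≠ 1) (h4 : l ≠ 4) (h5 : 4 * l ≠ 1) (v : Fin 4 → ℂ)
    (hx : v 0 ≠ 0 ∨ v 1 ≠ 0) (hy : v 2 ≠ 0 ∨ v 3 ≠ 0) :
    ∃ i, MvPolynomial.eval v (MvPolynomial.pderiv i (member l)) ≠ 0 := by
  by_contra hc
  push Not at hc
  have e0 := hc 0
  have e1 := hc 1
  have e2 := hc 2
  have e3 := hc 3
  rw [member_d0] at e0
  rw [member_d1] at e1
  rw [member_d2] at e2
  rw [member_d3] at e3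
  have h1' : 1 - l ≠ 0 := sub_ne_zero.2 h1.symm
  have h4' : l - 4 ≠ 0 := sub_ne_zero.2 h4
  have h5' : 1 - 4 * l ≠ 0 := sub_ne_zero.2 h5.symm
  have two : (2 : ℂ) ≠ 0 := two_ne_zero
  have key : v 2 = 0 ∧ v 3 = 0 := by
    by_cases ha : v 0 = 0
    · have hb : v 1 ≠ 0 := hx.resolve_left (by simpa using ha)
      have i2 : v 2 * (2 * v 1 ^ 2 * (l - 4)) = 0 := by rw [ha] at e2; linear_combination e2
      have i3 : v 3 * (2 * v 1 ^ 2 * (1 - l)) = 0 := by rw [ha] at e3; linear_combination e3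
      exact ⟨(mul_eq_zero.1 i2).resolve_right (mul_ne_zero (mul_ne_zero two (pow_ne_zero _ hb)) h4'),
        (mul_eq_zero.1 i3).resolve_right (mul_ne_zero (mul_ne_zero two (pow_ne_zero _ hb)) h1')⟩
    · by_cases hb : v 1 = 0
      · have i2 : v 2 * (8 * v 0 ^ 2 * (1 - l)) = 0 := by rw [hb] at e2; linear_combination e2
        have i3 : v 3 * (2 * v 0 ^ 2 * (1 - 4 * l)) = 0 := by rw [hb] at e3; linear_combination -e3
        exact ⟨(mul_eq_zero.1 i2).resolve_right
          (mul_ne_zero (mul_ne_zero (by norm_num) (pow_ne_zero _ ha)) h1'),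
          (mul_eq_zero.1 i3).resolve_right (mul_ne_zero (mul_ne_zero two (pow_ne_zero _ ha)) h5')⟩
      · have i0 : v 3 ^ 2 * (4 * l - 1) + 4 * v 2 ^ 2 * (1 - l) = 0 := by
          have := (mul_eq_zero.1 e0).resolve_left two
          exact (mul_eq_zero.1 this).resolve_left ha
        have i1 : v 3 ^ 2 * (1 - l) - v 2 ^ 2 * (4 - l) = 0 := by
          have := (mul_eq_zero.1 e1).resolve_left two
          exact (mul_eq_zero.1 this).resolve_left hb
        have j2 : v 2 ^ 2 * (9 * l) = 0 := by linear_combination (1 - l) * i0 - (4 * l - 1) * i1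
        have j3 : v 3 ^ 2 * (9 * l) = 0 := by linear_combination (4 - l) * i0 + 4 * (1 - l) * i1
        have h9 : 9 * l ≠ 0 := mul_ne_zero (by norm_num) h0
        exact ⟨pow_eq_zero_iff (two_ne_zero) |>.1 ((mul_eq_zero.1 j2).resolve_right h9),
          pow_eq_zero_iff (two_ne_zero) |>.1 ((mul_eq_zero.1 j3).resolve_right h9)⟩
  rcases hy with h | h
  · exact h key.1
  · exact h key.2

theorem fibre_eq (A B : ℂ[X]) (a : OnePoint ℂ) : fibre A B a = H26E.fib A B a := by
  cases a with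
  | infty => rfl
  | coe a => rfl

theorem fibre_ne_zero {A B : ℂ[X]} (h : IsCoprime A B) (hd : 0 < deg A B) (a : OnePoint ℂ) :
    fibre A B a ≠ 0 := by
  cases a with
  | infty =>
    have := H26E.lin_indep (a := 0) (b := 1) h hd (Or.inr one_ne_zero)
    intro h0
    apply this
    have h1 : B = 0 := h0
    simp [h1]
  | coe a =>
    have := H26E.lin_indep (a := 1) (b := a) h hd (Or.inl one_ne_zero)
    intro h0
    apply this
    have h1 : A - C a * B = 0 := h0
    simpa using h1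

theorem mlt_le (K : RationalCurve) (p : OnePoint ℂ × OnePoint ℂ) :
    H26E.mlt K.A₁ K.B₁ K.A₂ K.B₂ p ≤ K.mult p := by
  classical
  have f1 := fibre_ne_zero K.coprime₁ K.nonconst₁ p.1
  have f2 := fibre_ne_zero K.coprime₂ K.nonconst₂ p.2
  unfold H26E.mlt RationalCurve.mult
  rw [← fibre_eq, ← fibre_eq, H26E.natDegree_gcd _ _ f1 f2]
  set R := (fibre K.A₁ K.B₁ p.1).roots.toFinset with hR
  set F : OnePoint ℂ → ℕ := fun t => min (ord K.A₁ K.B₁ p.1 t) (ord K.A₂ K.B₂ p.2 t) with hF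
  have hsupp : Function.support F ⊆ ((insert OnePoint.infty (R.image (fun t : ℂ => (t : OnePoint ℂ))) :
      Finset (OnePoint ℂ)) : Set (OnePoint ℂ)) := by
    intro t ht
    rw [Function.mem_support] at ht
    rw [Finset.mem_coe, Finset.mem_insert]
    cases t with
    | infty => exact Or.inl rfl
    | coe t =>
      right
      rw [Finset.mem_image]
      refine ⟨t, ?_, rfl⟩
      rw [hR, Multiset.mem_toFinset, mem_roots f1]
      by_contra hroot
      apply ht
      have h0 : (fibre K.A₁ K.B₁ p.1).rootMultiplicity t = 0 := rootMultiplicity_eq_zero hroot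
      have h1 : ord K.A₁ K.B₁ p.1 (t : OnePoint ℂ) = (fibre K.A₁ K.B₁ p.1).rootMultiplicity t := rfl
      simp only [hF, h1, h0]
      exact Nat.zero_min _
  rw [finsum_eq_sum_of_support_subset F hsupp]
  calc ∑ t ∈ R, min ((fibre K.A₁ K.B₁ p.1).rootMultiplicity t) ((fibre K.A₂ K.B₂ p.2).rootMultiplicity t)
      = ∑ t ∈ R.image (fun t : ℂ => (t : OnePoint ℂ)), F t := by
        rw [Finset.sum_image (fun a _ b _ h => OnePoint.coe_injective h)]
        rfl
    _ ≤ _ := Finset.sum_le_sum_of_subset (Finset.subset_insert _ _)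

theorem result :
    (∀ l : ℂ, l ≠ 0 → l ≠ 1 → l ≠ 4 → 4 * l ≠ 1 → ∀ v : Fin 4 → ℂ, (v 0 ≠ 0 ∨ v 1 ≠ 0) →
      (v 2 ≠ 0 ∨ v 3 ≠ 0) → ∃ i, MvPolynomial.eval v (MvPolynomial.pderiv i (member l)) ≠ 0) ∧
    ∃ S : Finset (OnePoint ℂ × OnePoint ℂ),
      (∀ x y : ℂ, (x ^ 2 - 1) * (y ^ 2 - 4) = 0 → (x ^ 2 - 4) * (y ^ 2 - 1) = 0 →
        ((x : OnePoint ℂ), (y : OnePoint ℂ)) ∈ S) ∧
      ∀ n : ℕ, ∃ K : RationalCurve, (n : ℤ) ≤ K.canonicalDegree S := by
  classical
  refine ⟨fun l h0 h1 h4 h5 v hx hy => member_smooth l h0 h1 h4 h5 v hx hy, ?_⟩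
  obtain ⟨S, hS, hn⟩ := H26E.main
    (({(1, 1), (1, -1), (-1, 1), (-1, -1), (2, 2), (2, -2), (-2, 2), (-2, -2)} : Finset (ℂ × ℂ)).image
      (fun q => ((q.1 : OnePoint ℂ), (q.2 : OnePoint ℂ))))
  refine ⟨S, ?_, ?_⟩
  · intro x y h1 h2
    apply hS
    rw [Finset.mem_image]
    refine ⟨(x, y), ?_, rfl⟩
    have hx : ∀ {u a : ℂ}, u ^ 2 - a ^ 2 = 0 → u = a ∨ u = -a := by
      intro u a hu
      exact sq_eq_sq_iff_eq_or_eq_neg.1 (sub_eq_zero.1 hu)
    rcases mul_eq_zero.1 h1 with h | h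
    · have hy : y ^ 2 - 1 = 0 := by
        rcases mul_eq_zero.1 h2 with h' | h'
        · exfalso
          have : (3 : ℂ) = 0 := by linear_combination h - h'
          norm_num at this
        · exact h'
      have a1 := hx (u := x) (a := 1) (by linear_combination h)
      have a2 := hx (u := y) (a := 1) (by linear_combination hy)
      rcases a1 with rfl | rfl <;> rcases a2 with rfl | rfl <;> simp
    · have hy : x ^ 2 - 4 = 0 := by
        rcases mul_eq_zero.1 h2 with h' | h'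
        · exact h'
        · exfalso
          have : (3 : ℂ) = 0 := by linear_combination h' - h
          norm_num at this
      have a1 := hx (u := x) (a := 2) (by linear_combination hy)
      have a2 := hx (u := y) (a := 2) (by linear_combination h)
      rcases a1 with rfl | rfl <;> rcases a2 with rfl | rfl <;> simp
  · intro n
    obtain ⟨A₁, B₁, A₂, B₂, c1, c2, d1, d2, hi, h⟩ := hn n
    refine ⟨⟨A₁, B₁, A₂, B₂, c1, c2, d1, d2, hi⟩, ?_⟩
    generalize hK : (⟨A₁, B₁, A₂, B₂, c1, c2, d1, d2, hi⟩ : RationalCurve) = K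
    have h3 : ∑ p ∈ S, H26E.mlt A₁ B₁ A₂ B₂ p ≤ ∑ p ∈ S, K.mult p := by
      refine Finset.sum_le_sum (fun p _ => ?_)
      have := mlt_le K p
      rw [← hK] at this ⊢
      exact this
    have h4 : 2 * deg A₁ B₁ + 2 * deg A₂ B₂ + n ≤ ∑ p ∈ S, K.mult p := h.trans h3
    have h5 : (2 * (deg A₁ B₁ : ℤ) + 2 * (deg A₂ B₂ : ℤ) + n) ≤ ∑ p ∈ S, (K.mult p : ℤ) := by
      exact_mod_cast h4
    have e1 : deg K.A₁ K.B₁ = deg A₁ B₁ := by rw [← hK]
    have e2 : deg K.A₂ K.B₂ = deg A₂ B₂ := by rw [← hK]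
    unfold RationalCurve.canonicalDegree
    rw [e1, e2]
    linarith

end Pool.Agent.Results.MP_33f69e_ag.UnboundedCanonicalDegree
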